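import Mathlib
import Pool.Agent.H969TP.Final

/-!
# The transformation property of Cohen and random forcing fails under Chang's conjecture

If Chang's conjecture `(ℵ_{ω+1}, ℵ_ω) ↠ (ℵ₁, ℵ₀)` holds (this is consistent with CH, and even with
GCH, relative to large cardinals, by a theorem of Levinski, Magidor and Shelah), then for every
`κ ≥ ℵ_ω` neither the Cohen forcing `ℂ(κ)` nor the random forcing `𝔹(κ)` has the transformation
property.  More generally this follows from `(κ⁺, κ) ↠ (ℵ₁, ℵ₀)` for any `κ ≥ ℵ₁` with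
`κ < κ ^ ℵ₀`.

Proof.  Let `c_i` (`i < κ`) be different elements of the forcing and `f_ξ : ω → κ` (`ξ < κ⁺`)
different functions. Chang's conjecture gives an elementary submodel `B` of `H(θ)` with uncountable
`B ∩ κ⁺` and countable `S = B ∩ κ`. Take a countable `M₁` which contains a name `{(ň, c_{s(n)})}`
for an enumeration `s` of `S` and all ordinals of `B ∩ ω₁`. There is a `ξ ∈ B ∩ κ⁺` with
`f_ξ ∉ M₁`. Let `M₀ ⊆ B` be a countable elementary submodel which contains `f_ξ`; then
`δ_{M₀} ≤ δ_{M₁}`. An automorphism `H` of the forcing which fixes the name in `M₁` fixes all `c_i`,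
`i ∈ S`, hence also the name `{(ň, c_{f_ξ(n)})} ∈ M₀`, which is not in `M₁`.
-/

set_option autoImplicit false

namespace Pool.Agent.Results.MP_b7a9b7_lc.FailsUnderChang

open Cardinal Pool.Agent.H969TP

theorem result :
    (∀ κ : Cardinal.{0}, ℵ₁ ≤ κ → κ < κ ^ ℵ₀ → Chang κ → ∀ I : Type, κ ≤ #I →
      Fails (Cohen I) ∧ Fails (Random I)) ∧
    (Chang (ℵ_ Ordinal.omega0) → ∀ I : Type, ℵ_ Ordinal.omega0 ≤ #I →
      Fails (Cohen I) ∧ Fails (Random I)) :=
  final

end Pool.Agent.Results.MP_b7a9b7_lc.FailsUnderChang
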